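import Mathlib
import Pool.Agent.Y605.SC.Gap

/-!
# The length of a shortest alternating cycle cannot be approximated

The starting result shows that the shortest alternating cycle problem is NP-hard for bipartite
graphs that have a perfect matching. Here: even approximating the length of a shortest alternating
cycle (over all maximum matchings) within a factor `n ^ (1 - ε)` is NP-hard for these graphs.
-/

set_option autoImplicit false

namespace Pool.Agent.Results.MP_cb63a5_lc.Inapproximability

open Pool.Agent.NPC Pool.Agent.H586R2.Sac Pool.Agent.Y605.SC

/-- Let `0 < ε ≤ 1`; `n` is the number of vertices, `HasShortAltCycle G l` says that there are a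
maximum matching `M` of `G` and a cycle of length at most `l` every second edge of which is in `M`.

(i) Every language in NP has a polynomial-time reduction to instances `(G, s)` of SAC, `G` bipartite
with a perfect matching, such that there is an alternating cycle of length at most `s` for the
members of the language, and all alternating cycles are longer than `s * n ^ (1 - ε)` for all other
words.

(ii) If some polynomial-time algorithm approximates the length of a shortest alternating cycle of
bipartite graphs with a perfect matching within the factor `n ^ (1 - ε)` (and answers `0` if there
is no alternating cycle), then every language in NP is in P. -/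
theorem result (ε : ℝ) (hε : 0 < ε) (hε1 : ε ≤ 1) :
    (∀ L : Set (List Bool), InNP L → ∃ f : List Bool → Inst, PolyTime (fun w => bits (f w)) ∧
      ∀ w, (f w).Valid ∧ (f w).graph.IsBipartite ∧ HasPerfectMatching (f w).graph ∧
        (w ∈ L → HasShortAltCycle (f w).graph (f w).2) ∧
        (w ∉ L → ∀ l : ℕ, HasShortAltCycle (f w).graph l →
          ((f w).2 : ℝ) * ((f w).1.length : ℝ) ^ (1 - ε) < l)) ∧
    ((∃ A : List Bool → List Bool, PolyTime A ∧
        ∀ I : Inst, I.Valid → I.graph.IsBipartite → HasPerfectMatching I.graph →
          ∃ v : ℕ, ApproxValue I.graph ((I.1.length : ℝ) ^ (1 - ε)) v ∧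
            A (bits I.1) = bits v) →
      ∀ L : Set (List Bool), InNP L → InP L) :=
  ⟨gap hε hε1, fun ⟨_, hA, hAc⟩ => no_approx hε hε1 hA hAc⟩

end Pool.Agent.Results.MP_cb63a5_lc.Inapproximability
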